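import Pool.Agent.Lib.helper21.Bushy

set_option autoImplicit false

/-! Linking neighbours of a shrinking set with opposite colours. -/

namespace Pool.Agent.H.MP_c357a0_lc

open Pool.Agent.Lib.helper21 Pool.Agent.Lib.helper21.PR Pool.Agent.H.MP_fa2eca_lc
open Pool.Agent.Lib.helper21.ML Filter
open scoped Classical

attribute [local irreducible] Primrec Computable

abbrev Tb := List (ℕ × ℕ × Bool)

def upd (v : ℕ × Bool) (r : ℕ × ℕ × Bool) : ℕ × Bool :=
  if v.1 = r.1 then (r.2.1, xor v.2 r.2.2) else v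

def val (T : Tb) (x : ℕ) : ℕ × Bool := T.foldl upd (x, false)

def Sg (b : List Bool) (T : Tb) (x : ℕ) : Prop :=
  ∀ z < b.length, z ≠ x → b.getD z false = true → (val T z).1 ≠ (val T x).1

def Cd (b : List Bool) (T : Tb) (p q : ℕ) : Prop := p < q ∧ q < b.length ∧
  b.getD p false = true ∧ b.getD q false = true ∧ (∀ w < q, p < w → b.getD w false = false) ∧
    Sg b T p ∧ Sg b T q

def tr (T : Tb) (p q : ℕ) : ℕ × ℕ × Bool :=
  ((val T q).1, (val T p).1, (val T p).2 == (val T q).2)

def Stp (b : List Bool) (T T' : Tb) : Prop :=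
  (∃ q < b.length, ∃ p < q, Cd b T p q ∧ (∀ q' < q, ∀ p' < q', ¬ Cd b T p' q') ∧
    T' = T ++ [tr T p q]) ∨ (∀ q < b.length, ∀ p < q, ¬ Cd b T p q) ∧ T' = T

theorem val_prim : Primrec fun z : Tb × ℕ => val z.1 z.2 := by unfold val upd; fun_prop

theorem stp : ∃ f : List Bool × Tb → Tb, CI (fun _ => false) f ∧ ∀ a, Stp a.1 a.2 (f a) := by
  refine RI.choice (R := fun (a : List Bool × Tb) T => Stp a.1 a.2 T) (i_ci (ci_prim ?_)) fun a => ?_
  · have := val_prim
    have h : Primrec fun z : (List Bool × Tb) × ℕ × ℕ => cd (Cd z.1.1 z.1.2 z.2.1 z.2.2) := by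
      unfold Cd Sg; fun_prop
    obtain ⟨E, h1, e⟩ : ∃ E : List Bool × Tb × ℕ × ℕ → Bool, Primrec E ∧
        ∀ b T p q, Cd b T p q ↔ E (b, T, p, q) = true :=
      ⟨fun z => cd (Cd z.1 z.2.1 z.2.2.1 z.2.2.2), h.comp (g := fun z : _ × _ × _ × _ =>
        ((z.1, z.2.1), z.2.2)) (by fun_prop), by simp⟩
    simp only [Stp, e, tr]
    fun_prop
  · by_cases h : ∃ q, ∃ p, Cd a.1 a.2 p q
    · obtain ⟨p, c⟩ := Nat.find_spec h
      exact ⟨_, .inl ⟨_, c.2.1, p, c.1, c, fun q' d p' _ e => Nat.find_min h d ⟨p', e⟩, rfl⟩⟩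
    · exact ⟨_, .inr ⟨fun q _ p _ c => h ⟨q, p, c⟩, rfl⟩⟩

def Odd (T : Tb) (x z : ℕ) : Prop := (val T x).1 = (val T z).1 ∧ (val T x).2 ≠ (val T z).2

theorem val_app (T : Tb) (r : ℕ × ℕ × Bool) (x : ℕ) : val (T ++ [r]) x = upd (val T x) r := by
  simp [val]

theorem Stp.odd {b : List Bool} {T T' : Tb} (h : Stp b T T') {x z : ℕ} (a : Odd T x z) :
    Odd T' x z := by
  rcases h with ⟨q, -, p, -, -, -, rfl⟩ | ⟨-, rfl⟩
  · simp only [Odd, val_app, upd, a.1]
    split_ifs
    · exact ⟨rfl, by simpa using a.2⟩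
    · exact a
  · exact a

theorem Cd.odd {b : List Bool} {T : Tb} {p q : ℕ} (h : Cd b T p q) :
    Odd (T ++ [tr T p q]) p q := by
  have := h.2.2.2.2.2.2 p (h.1.trans h.2.1) h.1.ne h.2.2.1
  simp only [Odd, val_app, upd, tr, this, if_true, if_false, true_and]
  cases (val T p).2 <;> cases (val T q).2 <;> simp

theorem Cd.new {T : Tb} {p q x z : ℕ}
    (a : (val (T ++ [tr T p q]) x).1 = (val (T ++ [tr T p q]) z).1) :
    (val T x).1 = (val T z).1 ∨ (val T x).1 = (val T p).1 ∧ (val T z).1 = (val T q).1 ∨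
      (val T x).1 = (val T q).1 ∧ (val T z).1 = (val T p).1 := by
  simp only [val_app, upd, tr] at a
  split_ifs at a <;> simp_all

variable {B : ℕ → ℕ → Bool} {T : ℕ → Tb} (h0 : T 0 = [])
  (h1 : ∀ s, Stp (pre (B s) s) (T s) (T (s + 1))) (h2 : ∀ s x, B (s + 1) x = true → B s x = true)

theorem pg {X : ℕ → Bool} {s z : ℕ} (h : z < s) : (pre X s).getD z false = X z := by simp [pre, h]

theorem Sg.eq {s x z : ℕ} (h : Sg (pre (B s) s) (T s) x) (a : z < s) (b : B s z = true)
    (c : (val (T s) z).1 = (val (T s) x).1) : z = x :=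
  by_contra fun d => h z (by rwa [pre_len]) d (by rwa [pg a]) c

include h1 in
theorem odd_le {s s' x z : ℕ} (a : Odd (T s) x z) (b : s ≤ s') : Odd (T s') x z := by
  induction b with
  | refl => exact a
  | step _ ih => exact (h1 _).odd ih

include h2 in
theorem B_le {s s' x : ℕ} (a : B s' x = true) (b : s ≤ s') : B s x = true := by
  induction b with
  | refl => exact a
  | step _ ih => exact ih (h2 _ _ a)

include h0 h1 h2

theorem inv (s : ℕ) : ∀ x z, x < z → (val (T s) x).1 = (val (T s) z).1 → z < s ∧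
    (B s x = true → B s z = true → Odd (T s) x z ∧ ∀ w < z, x < w → B s w = false) := by
  induction s with
  | zero => exact fun x z a b => absurd b (by simpa [h0, val] using a.ne)
  | succ s ih =>
    intro x z a b
    have old : (val (T s) x).1 = (val (T s) z).1 → z < s + 1 ∧ (B (s + 1) x = true →
        B (s + 1) z = true → Odd (T (s + 1)) x z ∧ ∀ w < z, x < w → B (s + 1) w = false) :=
      fun c => ⟨(ih x z a c).1.trans s.lt_succ_self, fun d e =>
        ((ih x z a c).2 (h2 _ _ d) (h2 _ _ e)).imp (h1 s).odd fun k w u v =>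
          Bool.eq_false_iff.2 fun g => by simpa [k w u v] using h2 _ _ g⟩
    rcases h1 s with ⟨q, -, p, -, c, -, e⟩ | ⟨-, e⟩
    · have q1 : q < s := by simpa [pre_len] using c.2.1
      have p1 := c.1
      have bd : ∀ y, y < s → (val (T s) z).1 = (val (T s) y).1 → z < s := fun y u v => by
        by_contra w
        exact w (ih y z (by omega) v.symm).1
      rw [e] at b
      rcases Cd.new b with d | d | d
      · exact old d
      · have := bd q q1 d.2
        refine ⟨by omega, fun u v => ?_⟩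
        obtain rfl := c.2.2.2.2.2.1.eq (a.trans this) (h2 _ _ u) d.1
        obtain rfl := c.2.2.2.2.2.2.eq this (h2 _ _ v) d.2
        exact ⟨e ▸ c.odd, fun w k k' => Bool.eq_false_iff.2 fun g => by
          simpa only [pg (k.trans q1), h2 _ _ g, Bool.true_eq_false] using c.2.2.2.2.1 w k k'⟩
      · have := bd p (by omega) d.2
        refine ⟨by omega, fun u v => ?_⟩
        obtain rfl := c.2.2.2.2.2.2.eq (a.trans this) (h2 _ _ u) d.1
        obtain rfl := c.2.2.2.2.2.1.eq this (h2 _ _ v) d.2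
        omega
    · exact old (e ▸ b)

theorem calm {x s0 : ℕ} (a : ∀ s, B s x = true) (b : x < s0)
    (c : ∀ z, (∀ s, B s z = true) → (val (T s0) z).1 = (val (T s0) x).1 → z = x)
    (d : ∀ s ≥ s0, ∀ p q, Cd (pre (B s) s) (T s) p q → p ≠ x ∧ q ≠ x) :
    ∀ᶠ s in atTop, Sg (pre (B s) s) (T s) x := by
  have e : ∀ s, s0 ≤ s → ∀ z, (val (T s) z).1 = (val (T s) x).1 →
      (val (T s0) z).1 = (val (T s0) x).1 := fun s k => by
    induction k with
    | refl => exact fun _ => id
    | @step s k ih =>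
      intro z u
      have : x < s := b.trans_le k
      rcases h1 s with ⟨q, -, p, -, g, -, e⟩ | ⟨-, e⟩
      · rw [e] at u
        rcases Cd.new u with v | v | v
        · exact ih z v
        · exact absurd (g.2.2.2.2.2.2.eq this (a s) v.2).symm (d s k p q g).2
        · exact absurd (g.2.2.2.2.2.1.eq this (a s) v.2).symm (d s k p q g).1
      · exact ih z (e ▸ u)
  have : ∀ᶠ s in atTop, ∀ z ∈ Set.Iio s0, (val (T s0) z).1 = (val (T s0) x).1 → B s z = true →
      z = x := (eventually_all_finite (Set.finite_Iio _)).2 fun z _ => by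
    by_cases k : ∀ s, B s z = true
    · exact .of_forall fun _ u _ => c z k u
    · obtain ⟨s, k⟩ := not_forall.1 k
      exact (eventually_ge_atTop s).mono fun s' u _ v => absurd (B_le h2 v u) k
  filter_upwards [this, eventually_ge_atTop s0] with s u v z k k1 k2 k3
  rw [pre_len] at k
  have w := e s v z k3
  refine k1 (u z (by_contra fun g => g ?_) w (by rwa [pg k] at k2))
  exact (inv h0 h1 h2 s0 x z (b.trans_le (not_lt.1 g)) w.symm).1

theorem prog (inf : ∀ m, ∃ x, m < x ∧ ∀ s, B s x = true) (m : ℕ) : ∃ s u t, m < u ∧ u < t ∧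
    (∀ s, B s u = true) ∧ (∀ s, B s t = true) ∧ Odd (T s) u t := by
  by_contra! c
  obtain ⟨a, a1, a2⟩ := inf m
  obtain ⟨u, u1, u2⟩ := inf a
  obtain ⟨t1, t2⟩ := Nat.find_spec (inf u)
  have t3 := fun w => Nat.find_min (inf u) (m := w)
  generalize Nat.find (inf u) = t at *
  have nm : ∀ s x, a < x → (∀ s, B s x = true) → ∀ z, (∀ s, B s z = true) →
      (val (T s) z).1 = (val (T s) x).1 → z = x := fun s x k k1 z k2 k3 => by
    by_contra g
    rcases lt_or_gt_of_ne g with g | g
    · have := (inv h0 h1 h2 s z x g k3).2 (k2 s) (k1 s)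
      by_cases j : z < a
      · simpa [a2 s] using this.2 a k j
      · exact c s z x (by omega) g k2 k1 this.1
    · exact c s x z (by omega) g k1 k2 ((inv h0 h1 h2 s x z g k3.symm).2 (k1 s) (k2 s)).1
  have st : ∀ᶠ s in atTop, ∀ z ∈ Set.Iic t, B s z = true → ∀ s, B s z = true :=
    (eventually_all_finite (Set.finite_Iic _)).2 fun z _ => by
      by_cases k : ∀ s, B s z = true
      · exact .of_forall fun _ _ => k
      · obtain ⟨s, k⟩ := not_forall.1 k
        exact (eventually_ge_atTop s).mono fun s' u v => absurd (B_le h2 v u) k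
  have nc : ∀ q ≤ t + 1, ∀ᶠ s in atTop, ∀ q' < q, ∀ p, ¬ Cd (pre (B s) s) (T s) p q' := by
    intro q k
    induction q with
    | zero => simp
    | succ q ih =>
      simp only [Nat.forall_lt_succ_right]
      refine (ih (by omega)).and (by_contra fun g => ?_)
      obtain ⟨s, g1, g2, g3⟩ := ((not_eventually.1 g).and_eventually
        ((ih (by omega)).and st)).exists
      obtain ⟨p, g1⟩ : ∃ p, Cd (pre (B s) s) (T s) p q := by simpa using g1
      rcases h1 s with ⟨q', -, p', -, j, j1, e⟩ | ⟨j, -⟩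
      · obtain rfl : q' = q := le_antisymm (not_lt.1 fun v => j1 q v p g1.1 g1)
          (not_lt.1 fun v => g2 q' v p' j)
        have j2 : q' < s := by simpa [pre_len] using j.2.1
        have j3 := j.1
        refine g ((eventually_ge_atTop (s + 1)).mono fun s' v p w => j3.ne (w.2.2.2.2.2.2.eq
          (by omega) (g3 p' (by simp; omega) ((pg (j3.trans j2)).symm.trans j.2.2.1) s')
            (odd_le h1 (e ▸ j.odd) v).1))
      · exact j q g1.2.1 p g1.1 g1
  obtain ⟨s1, k1⟩ := eventually_atTop.1 ((nc _ le_rfl).and (st.and (eventually_gt_atTop t)))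
  have cu : ∀ s ≥ s1, Sg (pre (B s) s) (T s) u → ¬ Sg (pre (B s) s) (T s) t := fun s k v w => by
    have := (k1 s k).2.2
    exact (k1 s k).1 t (by omega) u ⟨t1, by rwa [pre_len], by rw [pg (by omega), u2],
      by rw [pg this, t2], fun y j j' => by
        rw [pg (by omega)]
        exact Bool.eq_false_iff.2 fun g => t3 y j ⟨j', (k1 s k).2.1 y j.le g⟩, v, w⟩
  obtain ⟨s2, k2⟩ := eventually_atTop.1 ((calm h0 h1 h2 u2 (t1.trans (k1 s1 le_rfl).2.2)
    (nm s1 u u1 u2) fun s k p q g => by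
      have : t < q := not_le.1 fun v => (k1 s k).1 q (by omega) p g
      refine ⟨?_, by omega⟩
      rintro rfl
      simpa only [pg (k1 s k).2.2, t2, Bool.true_eq_false] using g.2.2.2.2.1 t this t1).and (eventually_ge_atTop s1))
  obtain ⟨s, k3, k4⟩ := ((calm h0 h1 h2 t2 (k1 s2 (k2 s2 le_rfl).2).2.2
    (nm s2 t (by omega) t2) fun s k p q g => ⟨by
      rintro rfl
      exact cu s (k2 s k).2 (k2 s k).1 g.2.2.2.2.2.1, by
      rintro rfl
      exact (k1 s (k2 s k).2).1 q (by omega) p g⟩).and (eventually_ge_atTop s2)).exists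
  exact cu s (k2 s k4).2 (k2 s k4).1 k3

end Pool.Agent.H.MP_c357a0_lc
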